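import Pool.Agent.H82.UC.Many

/-!
# Primes simultaneously in the windows above `k` translated squares, for arbitrary thin sets of translates

The question is whether for all `n > 4765516` there is a prime in `(n², n² + (log_2 n)²]`. Here the squares of almost
all vectors `(n_1, …, n_k)` are translated by a common number `s`, where `s` runs through an ARBITRARY set `T` of at
least `N / log ^ C N` integers in `[1, N]`. We prove: for all vectors with at most `X ^ k / log ^ U N` exceptions the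
following holds for ALL integers `b_i` in `[1, N]` with `|b_i - n_i²| ≤ log ^ A N` and all lengths `y_i` between
`log ^ K N` and `N`: for at least `(1/4 - 2ε) ^ k |T|` of the `s ∈ T` there are at least `ε y_i / log N` primes in
EVERY ONE of the `k` windows `(s + b_i, s + b_i + y_i]`. The squares may be replaced by `β_i + n_i²` for arbitrary real
numbers `β_i`, and by arbitrary families of real numbers of nearly minimal energy.

Method: one window at a time. The set of the `s ∈ T` with many primes in the first window is used as the new set `T`,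
and the exceptional members of the next family are bounded for each of the `log ^ O(1) N` sets which arise from the
integers `b_1` near `n_1²` and from a geometric net of lengths. For one family the statement that almost all
translates are good for a large part of `T` is from the starting library (`Pool.Agent.TH646.TT.cnt_full`), as is the
passage from windows around real sequences to families of integers (`Pool.Agent.Q56.TF.Near`).

From Mathlib: `Fintype.piFinset`: the product of finite sets, that is the vectors `m` with `m i ∈ Icc 1 (x i)`.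
-/

set_option autoImplicit false

namespace Pool.Agent.Results.MP_73869e_nt.SimultaneousTranslatedSquares

open Finset

/-- the number of the primes in `(n, n + y]` -/
def primesIn (n y : ℕ) : ℕ := ((Ioc n (n + y)).filter Nat.Prime).card

open Classical in
/-- The energy of order `p` of the family of real numbers `r 1, ..., r x`: the number of the pairs `v`, `w` of
`p`-tuples of elements of `{1, ..., x}` such that `r (v 1) + ... + r (v p)` and `r (w 1) + ... + r (w p)` differ
by at most `1`. -/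
noncomputable def energy (p x : ℕ) (r : ℕ → ℝ) : ℕ :=
  (((Fintype.piFinset fun _ : Fin p => Icc 1 x) ×ˢ (Fintype.piFinset fun _ : Fin p => Icc 1 x)).filter
    (fun q => |∑ i, r (q.1 i) - ∑ i, r (q.2 i)| ≤ 1)).card

open Classical in
/-- The vector `b` is good for `T`: for all lengths `y i` with `log ^ K N ≤ y i ≤ N` there are at least
`(1/4 - 2ε) ^ k |T|` elements `s` of `T` such that for every `i` there are at least `ε y i / log N` primes in
`(s + b i, s + b i + y i]`. -/
def Good (ε : ℝ) (K N : ℕ) (T : Finset ℕ) {k : ℕ} (b : Fin k → ℕ) : Prop :=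
  ∀ y : Fin k → ℕ, (∀ i, Real.log N ^ K ≤ y i ∧ y i ≤ N) →
    (1 / 4 - 2 * ε) ^ k * (T.card : ℝ) ≤
      ((T.filter (fun s => ∀ i, ε * y i / Real.log N ≤ (primesIn (s + b i) (y i) : ℝ))).card : ℝ)

open Classical in
/-- The number of the vectors `m` with `m i ∈ {1, ..., x i}` for which not all the vectors `b` of integers
`b i ∈ [1, N]` with `|b i - r i (m i)| ≤ h` have the property `G`. -/
noncomputable def exceptions {k : ℕ} (x : Fin k → ℕ) (r : Fin k → ℕ → ℝ) (h : ℝ) (N : ℕ)
    (G : (Fin k → ℕ) → Prop) : ℕ :=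
  ((Fintype.piFinset fun i => Icc 1 (x i)).filter
    (fun m => ∃ b : Fin k → ℕ, (∀ i, 1 ≤ b i ∧ b i ≤ N ∧ |(b i : ℝ) - r i (m i)| ≤ h) ∧ ¬ G b)).card

open Classical in
/-- The number of the vectors `n` with `n i ∈ {1, ..., X}` for which the vector of the squares `n i ^ 2` does not
have the property `G`. -/
noncomputable def squareExceptions (k X : ℕ) (G : (Fin k → ℕ) → Prop) : ℕ :=
  ((Fintype.piFinset fun _ : Fin k => Icc 1 X).filter (fun n => ¬ G (fun i => n i ^ 2))).card

/-- The property at scale `N` for the families `r i 1, ..., r i (x i)`, `i = 1, ..., k`: for every set `T` of at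
least `N / log ^ C N` integers in `[1, N]`, for all vectors `m` with at most `x 1 ⋯ x k / log ^ U N` exceptions, all
vectors of integers in `[1, N]` at a distance of at most `log ^ A N` from the `r i (m i)` are good. -/
def Holds (ε : ℝ) (A C U K N : ℕ) {k : ℕ} (x : Fin k → ℕ) (r : Fin k → ℕ → ℝ) : Prop :=
  ∀ T : Finset ℕ, T ⊆ Icc 1 N → N / Real.log N ^ C ≤ (T.card : ℝ) →
    (exceptions x r (Real.log N ^ A) N (Good ε K N T) : ℝ) ≤ (∏ i, (x i : ℝ)) / Real.log N ^ U

lemma near_monoC {A p B C C' N x : ℕ} {r : ℕ → ℝ} (hN : 1 ≤ Real.log N) (hC : C ≤ C')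
    (h : Pool.Agent.Q56.TF.Near A p B C N x r) : Pool.Agent.Q56.TF.Near A p B C' N x r := by
  intro P
  obtain ⟨s, h1, h2, h3⟩ := h P
  refine ⟨s, h1, h2.trans ?_, h3⟩
  apply mul_le_mul_of_nonneg_right _ (by positivity)
  exact pow_le_pow_right₀ hN hC

lemma general (k : ℕ) (p B' C' : Fin k → ℕ) (A C U : ℕ) (ε : ℝ) (hε : 0 < ε) (hε1 : ε ≤ 1 / 16) :
    ∃ K : ℕ, ∀ K' : ℕ, K ≤ K' → ∀ N : ℕ, K' ≤ N → ∀ (x : Fin k → ℕ) (r : Fin k → ℕ → ℝ),
      (∀ i, Pool.Agent.Q56.TF.Near A (p i) (B' i) (C' i) N (x i) (r i)) → Holds ε A C U K' N x r := by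
  classical
  obtain ⟨K, hK⟩ := Pool.Agent.H82.UC.many k p A (univ.sup B') (univ.sup C' + C) U ε hε hε1
  obtain ⟨N₀, h0⟩ := Filter.eventually_atTop.1 (hK.and (Pool.Agent.W301.SS.ev_L 1))
  refine ⟨max K N₀, fun K' hK' N hN x r hr T hT hTN => ?_⟩
  obtain ⟨h1, h2⟩ := h0 N (((le_max_right _ _).trans hK').trans hN)
  have hℓ : 0 < Real.log N := by linarith
  have hTN' : (N : ℝ) ≤ T.card * Real.log N ^ (univ.sup C' + C) := by
    rw [div_le_iff₀ (by positivity)] at hTN
    refine hTN.trans ?_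
    apply mul_le_mul_of_nonneg_left _ (Nat.cast_nonneg _)
    exact pow_le_pow_right₀ h2 (by omega)
  have hnear : ∀ i, Pool.Agent.Q56.TF.Near A (p i) (univ.sup B') (univ.sup C' + C) N (x i) (r i) := fun i =>
    near_monoC h2 ((le_sup (f := C') (mem_univ i)).trans (Nat.le_add_right _ _))
      ((hr i).mono (le_sup (f := B') (mem_univ i)))
  unfold exceptions
  refine h1 x r hnear T hT hTN' _ (filter_subset _ _) ?_
  intro m hm
  obtain ⟨_, b, hb1, hb2⟩ := mem_filter.1 hm
  refine ⟨b, hb1, fun hcon => hb2 ?_⟩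
  intro y hy
  have hy' : ∀ i, Real.log N ^ K ≤ y i ∧ y i ≤ N := fun i =>
    ⟨(pow_le_pow_right₀ h2 ((le_max_left _ _).trans hK')).trans (hy i).1, (hy i).2⟩
  refine (hcon y hy').trans ?_
  have h5 : T.filter (fun a => ∀ i, ε * y i ≤ (Pool.Agent.W301.SS.pn (a + b i) (y i) : ℝ) * Real.log N) ⊆
      T.filter (fun s => ∀ i, ε * y i / Real.log N ≤ (primesIn (s + b i) (y i) : ℝ)) := by
    intro a ha
    obtain ⟨ha1, ha2⟩ := mem_filter.1 ha
    refine mem_filter.2 ⟨ha1, fun i => ?_⟩
    rw [div_le_iff₀ hℓ]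
    exact ha2 i
  exact_mod_cast card_le_card h5

lemma base_sq : Pool.Agent.Q56.TF.Base (fun m : ℕ => (m : ℝ) ^ 2) 2 := by
  have h := Pool.Agent.Q56.TF.base_poly (Polynomial.X ^ 2 : Polynomial ℤ) (by simp)
  simpa using h

lemma part1 (k A B C U : ℕ) (ε : ℝ) (hε : 0 < ε) (hε1 : ε ≤ 1 / 16) : ∃ K : ℕ, ∀ N : ℕ, K ≤ N →
    ∀ x : Fin k → ℕ, (∀ i, (x i : ℝ) ^ 2 ≤ B * N ∧ N / Real.log N ^ C ≤ (x i : ℝ) ^ 2) →
    ∀ β : Fin k → ℝ, (∀ i, |β i| ≤ B * N) → Holds ε A C U K N x (fun i m => β i + (m : ℝ) ^ 2) := by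
  classical
  obtain ⟨p, B', C', N₀, h1⟩ := Pool.Agent.Q56.TF.near_base base_sq (by norm_num) A B C
  obtain ⟨K, h2⟩ := general k (fun _ => p) (fun _ => B') (fun _ => C') A C U ε hε hε1
  obtain ⟨N₁, h3⟩ := Filter.eventually_atTop.1 (Pool.Agent.W301.SS.ev_L 1)
  refine ⟨K + N₀ + N₁, fun N hN x hx β hβ => h2 _ (by omega) N hN x _ fun i => ?_⟩
  have h4 : 1 ≤ Real.log N := h3 N (by omega)
  refine h1 N (by omega) (x i) ?_ ?_ (β i) (hβ i)
  · rw [Real.rpow_two]
    exact (hx i).1
  · rw [Real.rpow_two, mul_comm]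
    have := (hx i).2
    rwa [div_le_iff₀ (by positivity)] at this

/-- Let `k`, `A`, `B`, `C`, `U` and `0 < ε ≤ 1/16` be fixed. There is a `K` such that for all `N ≥ K`:

* let `N / log ^ C N ≤ (x i)² ≤ B N` and let `β i` be real numbers with `|β i| ≤ B N`, `i = 1, ..., k`; then
  for every set `T` of at least `N / log ^ C N` integers in `[1, N]`, for all vectors `(n_1, ..., n_k)` with
  `1 ≤ n_i ≤ x i`, with at most `x 1 ⋯ x k / log ^ U N` exceptions, ALL vectors `b` of integers `b i ∈ [1, N]` with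
  `|b i - (β i + n_i²)| ≤ log ^ A N` and ALL lengths `y i` with `log ^ K N ≤ y i ≤ N` are such that for at least
  `(1/4 - 2ε) ^ k |T|` of the `s ∈ T` there are, for every `i`, at least `ε y i / log N` primes in the window
  `(s + b i, s + b i + y i]`;
* in particular for the squares `b i = n_i²` of the integers `n_i ≤ X`, where `N = X²`;
* (for given `p 1, ..., p k`, with `K` depending on them) the same holds when the `β i + m²` are replaced by
  arbitrary families of real numbers `r i 1, ..., r i (x i)` in `[-B N, B N]` with an energy of order `p i` of at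
  most `log ^ C N` times `(x i) ^ (2 p i) / N` (the minimal possible order of magnitude). -/
theorem result (k A B C U : ℕ) (ε : ℝ) (hε : 0 < ε) (hε1 : ε ≤ 1 / 16) :
    (∃ K : ℕ, ∀ N : ℕ, K ≤ N →
      ∀ x : Fin k → ℕ, (∀ i, (x i : ℝ) ^ 2 ≤ B * N ∧ N / Real.log N ^ C ≤ (x i : ℝ) ^ 2) →
      ∀ β : Fin k → ℝ, (∀ i, |β i| ≤ B * N) → Holds ε A C U K N x (fun i m => β i + (m : ℝ) ^ 2)) ∧
    (∃ K : ℕ, ∀ X : ℕ, K ≤ X →
      ∀ T : Finset ℕ, T ⊆ Icc 1 (X ^ 2) → (X : ℝ) ^ 2 / Real.log X ^ C ≤ (T.card : ℝ) →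
      (squareExceptions k X (Good ε K (X ^ 2) T) : ℝ) ≤ (X : ℝ) ^ k / Real.log X ^ U) ∧
    (∀ p : Fin k → ℕ, ∃ K : ℕ, ∀ N : ℕ, K ≤ N → ∀ (x : Fin k → ℕ) (r : Fin k → ℕ → ℝ),
      (∀ i, ∀ m ∈ Icc 1 (x i), |r i m| ≤ B * N) →
      (∀ i, (energy (p i) (x i) (r i) : ℝ) * N ≤ Real.log N ^ C * (x i : ℝ) ^ (2 * p i)) →
      Holds ε A C U K N x r) := by
  classical
  refine ⟨part1 k A B C U ε hε hε1, ?_, fun p => ?_⟩
  · obtain ⟨K, hK⟩ := part1 k 0 1 C U ε hε hε1
    obtain ⟨K₁, hK₁⟩ := Filter.eventually_atTop.1 (Pool.Agent.W301.SS.ev_L 1)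
    refine ⟨K + K₁ + 1, fun X hX T hT hTX => ?_⟩
    have hXr : (1 : ℝ) ≤ X := by exact_mod_cast (by omega : 1 ≤ X)
    have hl : 1 ≤ Real.log X := hK₁ X (by omega)
    have hl0 : 0 < Real.log X := by linarith
    have hN : ((X ^ 2 : ℕ) : ℝ) = (X : ℝ) ^ 2 := by push_cast; ring
    have hlN : Real.log X ≤ Real.log ((X ^ 2 : ℕ) : ℝ) := by
      rw [hN, Real.log_pow]
      push_cast
      linarith
    have hlN1 : 1 ≤ Real.log ((X ^ 2 : ℕ) : ℝ) := hl.trans hlN
    have hKX : K ≤ X ^ 2 := by nlinarith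
    have h1 := hK (X ^ 2) hKX (fun _ => X) (fun _ => ⟨by rw [hN]; push_cast; linarith, by
      rw [hN]
      exact div_le_self (by positivity) (one_le_pow₀ (by rw [← hN]; exact hlN1))⟩) (fun _ => 0) (fun _ => by
        rw [abs_zero]; positivity) T hT (by
        refine le_trans ?_ hTX
        rw [hN]
        rw [← hN]
        have : Real.log X ^ C ≤ Real.log ((X ^ 2 : ℕ) : ℝ) ^ C := pow_le_pow_left₀ hl0.le hlN C
        exact div_le_div_of_nonneg_left (by positivity) (by positivity) this)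
    have h2 : (Fintype.piFinset fun _ : Fin k => Icc 1 X).filter
        (fun n : Fin k → ℕ => ¬ Good ε (K + K₁ + 1) (X ^ 2) T (fun i => n i ^ 2)) ⊆
        (Fintype.piFinset fun i : Fin k => Icc 1 ((fun _ : Fin k => X) i)).filter
        (fun m => ∃ b : Fin k → ℕ, (∀ i, 1 ≤ b i ∧ b i ≤ X ^ 2 ∧
          |(b i : ℝ) - (fun (_ : Fin k) (m : ℕ) => (0 : ℝ) + (m : ℝ) ^ 2) i (m i)| ≤
            Real.log ((X ^ 2 : ℕ) : ℝ) ^ 0) ∧ ¬ Good ε K (X ^ 2) T b) := by
      intro n hn
      obtain ⟨hn1, hn2⟩ := mem_filter.1 hn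
      refine mem_filter.2 ⟨hn1, fun i => n i ^ 2, fun i => ?_, fun hg => hn2 ?_⟩
      · have h3 := mem_Icc.1 (Fintype.mem_piFinset.1 hn1 i)
        refine ⟨Nat.one_le_pow _ _ (by omega), Nat.pow_le_pow_left h3.2 2, ?_⟩
        simp
      · intro y hy
        refine hg y fun i => ⟨le_trans ?_ (hy i).1, (hy i).2⟩
        exact pow_le_pow_right₀ hlN1 (by omega)
    have h3 := card_le_card h2
    have h4 : (squareExceptions k X (Good ε (K + K₁ + 1) (X ^ 2) T) : ℝ) ≤
        (exceptions (fun _ : Fin k => X) (fun (_ : Fin k) (m : ℕ) => (0 : ℝ) + (m : ℝ) ^ 2)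
          (Real.log ((X ^ 2 : ℕ) : ℝ) ^ 0) (X ^ 2) (Good ε K (X ^ 2) T) : ℝ) := by
      unfold exceptions squareExceptions
      exact_mod_cast h3
    refine h4.trans (h1.trans ?_)
    rw [prod_const, card_univ, Fintype.card_fin]
    apply div_le_div_of_nonneg_left (by positivity) (by positivity)
    exact pow_le_pow_left₀ hl0.le hlN U
  · have h := fun i => Pool.Agent.Q56.TF.near_gen (p i) A B C
    choose B' C' N₀ h1 using h
    obtain ⟨K, h2⟩ := general k p B' C' A C U ε hε hε1
    refine ⟨K + univ.sup N₀, fun N hN x r hr hE => h2 _ (Nat.le_add_right _ _) N hN x r fun i => ?_⟩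
    exact h1 i N (((le_sup (f := N₀) (mem_univ i)).trans (Nat.le_add_left _ _)).trans hN) (x i) (r i) (hr i) (hE i)

end Pool.Agent.Results.MP_73869e_nt.SimultaneousTranslatedSquares
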